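import Pool.Agent.Y297.NT.Pull
import Pool.Agent.Y71.NT.Abh
import Pool.Agent.W603.LV.Can
import Pool.Agent.N131.MV.Plc
import Pool.Agent.W602.GT.Sys

/-!
Project SX (helper145), part REGF (helper281): regularity of pull-backs along horizontal divisors,
the main step.
-/

set_option autoImplicit false
set_option linter.overlappingInstances false
set_option linter.unusedSectionVars false

open FF

namespace Pool.Agent.N281.SX

open Pool.Agent.W603.LV
open Pool.Agent.W602.GT (Divisorial RegAt IsPluri DerReg)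

section

variable {E Λ Ξ : Type} [Field E] [Field Λ] [Field Ξ] [Algebra ℂ E] [Algebra ℂ Λ] [Algebra ℂ Ξ]
    [Algebra Λ Ξ] [Algebra E Ξ] [IsScalarTower ℂ Λ Ξ] [IsScalarTower ℂ E Ξ]

/-- a place as a place over `ℂ` -/
def rcP (Q : Place Λ Ξ) : Place ℂ Ξ where
  ord := Q.ord
  ord_zero := Q.ord_zero
  ord_mul := Q.ord_mul
  ord_add := Q.ord_add
  ord_const := by
    intro c hc
    rw [IsScalarTower.algebraMap_apply ℂ Λ Ξ]
    exact Q.ord_const (by simpa using hc)
  surj := Q.surj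

/-- it is divisorial -/
theorem rcP_div {N : ℕ} (hN : Algebra.trdeg ℂ Λ = N) (Q : Place Λ Ξ) :
    Divisorial (N + 1) (rcP Q) := by
  obtain ⟨b, hb⟩ := Pool.Agent.W602.GT.basis_of_trdeg hN
  refine ⟨fun i : Fin N => algebraMap Λ Ξ (b i), ?_⟩
  intro F hF
  have h1 : MvPolynomial.aeval (fun i : Fin N => algebraMap Λ Ξ (b i)) F =
      algebraMap Λ Ξ (MvPolynomial.aeval b F) :=
    MvPolynomial.aeval_algebraMap_apply Ξ b F
  have h2 : MvPolynomial.aeval b F ≠ 0 := by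
    intro h
    exact hF ((algebraicIndependent_iff.1 hb.1) F h)
  constructor
  · intro h
    apply h2
    have h3 : algebraMap Λ Ξ (MvPolynomial.aeval b F) = 0 := h1.symm.trans h
    exact (map_eq_zero (algebraMap Λ Ξ)).1 h3
  · have h3 : Q.ord (algebraMap Λ Ξ (MvPolynomial.aeval b F)) = 0 := Q.ord_const h2
    rw [← h1] at h3
    exact h3

/-- the normalised derivations -/
noncomputable def dl {m : ℕ} (δ : Fin m → Derivation ℂ Ξ Ξ) (i0 : Fin m) (τ a : Ξ) (i : Fin m) :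
    Derivation ℂ Ξ Ξ :=
  if i = i0 then a⁻¹ • δ i0 else δ i - (δ i τ / a) • δ i0

theorem dl_same {m : ℕ} (δ : Fin m → Derivation ℂ Ξ Ξ) (i0 : Fin m) (τ a : Ξ) (z : Ξ) :
    dl δ i0 τ a i0 z = a⁻¹ * δ i0 z := by
  unfold dl
  rw [if_pos rfl]
  simp

theorem dl_ne {m : ℕ} (δ : Fin m → Derivation ℂ Ξ Ξ) (i0 : Fin m) (τ a : Ξ) {i : Fin m}
    (h : i ≠ i0) (z : Ξ) : dl δ i0 τ a i z = δ i z - δ i τ / a * δ i0 z := by
  unfold dl
  rw [if_neg h]
  simp

theorem det_eq {m : ℕ} (δ : Fin m → Derivation ℂ Ξ Ξ) (i0 : Fin m) (τ : Ξ) {a : Ξ} (ha : a ≠ 0)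
    (y : Fin m → Ξ) : (Matrix.of fun i j => δ i (y j) : Matrix (Fin m) (Fin m) Ξ).det =
      a * (Matrix.of fun i j => dl δ i0 τ a i (y j) : Matrix (Fin m) (Fin m) Ξ).det := by
  classical
  obtain ⟨M', hM'⟩ : ∃ M' : Matrix (Fin m) (Fin m) Ξ, M' = Matrix.of fun i j =>
    dl δ i0 τ a i (y j) := ⟨_, rfl⟩
  rw [← hM']
  have h1 : (M'.updateRow i0 (a • M' i0)).det = a * M'.det := by
    rw [Matrix.det_updateRow_smul, Matrix.updateRow_eq_self]
  rw [← h1]
  refine Matrix.det_eq_of_forall_row_eq_smul_add_const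
    (fun i => if i = i0 then 0 else δ i τ / a) i0 (if_pos rfl) ?_
  intro i j
  by_cases hi : i = i0
  · subst hi
    rw [if_pos rfl, zero_mul, add_zero, Matrix.updateRow_self, hM']
    simp only [Matrix.of_apply, Pi.smul_apply, smul_eq_mul]
    rw [dl_same]
    field_simp
  · rw [if_neg hi, Matrix.updateRow_self, Matrix.updateRow_ne hi, hM']
    simp only [Matrix.of_apply, Pi.smul_apply, smul_eq_mul]
    rw [dl_same, dl_ne _ _ _ _ hi]
    field_simp
    ring

end

theorem core (E Λ Ξ : Type) [Field E] [Field Λ] [Field Ξ] [Algebra ℂ E] [Algebra ℂ Λ] [Algebra ℂ Ξ]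
    [Algebra Λ Ξ] [Algebra E Ξ] [IsScalarTower ℂ Λ Ξ] [IsScalarTower ℂ E Ξ]
    [Algebra.EssFiniteType ℂ E] [IsAlgClosed Λ] [IsFF Λ Ξ] (m N : ℕ) (hm : Algebra.trdeg ℂ E = m)
    (hN : Algebra.trdeg ℂ Λ = N) (x : Fin m → E) (hx : IsTranscendenceBasis ℂ x) (f : E)
    (hpl : IsPluri 1 (fun D : Fin m → Derivation ℂ E E =>
      (Matrix.of fun i j => D i (x j) : Matrix (Fin m) (Fin m) E).det * f))
    (hreg : ∀ P : Place ℂ E, Divisorial m P → RegAt P (fun D : Fin m → Derivation ℂ E E =>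
      (Matrix.of fun i j => D i (x j) : Matrix (Fin m) (Fin m) E).det * f))
    (Ds : Derivation Λ Ξ Ξ) (s : Ξ) (hs : Ds s = 1)
    (δ : Fin m → Derivation ℂ Ξ Ξ) (i0 : Fin m) (hi0 : ∀ z, δ i0 z = Ds z)
    (hδ : ∀ i (c : Λ), ∃ c' : Λ, δ i (algebraMap Λ Ξ c) = algebraMap Λ Ξ c')
    (Q : Place Λ Ξ) : Ge Q (vo Q Ds)
      ((Matrix.of fun i j => δ i (algebraMap E Ξ (x j)) : Matrix (Fin m) (Fin m) Ξ).det *
        algebraMap E Ξ f) := by
  have hch : CharZero Λ := charZero_of_injective_algebraMap (algebraMap ℂ Λ).injective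
  have hess : Algebra.EssFiniteType Λ Ξ := IsFF.ess
  have hD0 : Ds ≠ 0 := by
    rintro rfl
    simp at hs
  obtain ⟨τ, hτ⟩ : ∃ τ, τ = unif Q := ⟨_, rfl⟩
  have hτ1 : Q.ord τ = 1 := by rw [hτ]; exact ord_unif Q
  obtain ⟨a, ha⟩ : ∃ a, a = Ds τ := ⟨_, rfl⟩
  have ha0 : a ≠ 0 := by rw [ha]; exact der_pi_ne_zero hD0 Q hτ1
  have hvo : vo Q Ds = Q.ord a := by rw [ha, hτ]; rfl
  -- regularity of the normalised derivations
  have hdr : ∀ i, DerReg (rcP Q) (dl δ i0 τ a i) := by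
    intro i g hg
    have h1 : Q.Reg g := hg
    have h2 := Pool.Agent.N131.MV.der_regular (P := Q) (m := 0) (s := (Fin.elim0 : Fin 0 → Ξ))
      (δ := dl δ i0 τ a i) (by rw [IsFF.trdeg (k := Λ) (K := Ξ)]; simp)
      (by
        intro G hG
        rw [MvPolynomial.eq_C_of_isEmpty G] at hG ⊢
        have hc : MvPolynomial.coeff 0 G ≠ 0 := by
          intro h
          rw [h, map_zero] at hG
          exact hG rfl
        rw [MvPolynomial.aeval_C]
        exact ⟨by simpa using hc, Q.ord_const hc⟩)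
      (by
        intro c
        by_cases hi : i = i0
        · subst hi
          rw [dl_same, hi0, Derivation.map_algebraMap, mul_zero]
          exact Q.reg_zero
        · rw [dl_ne _ _ _ _ hi, hi0, Derivation.map_algebraMap, mul_zero, sub_zero]
          obtain ⟨c', hc'⟩ := hδ i c
          rw [hc']
          exact Q.reg_const c')
      (fun i => i.elim0) hτ1
      (by
        by_cases hi : i = i0
        · subst hi
          rw [dl_same, hi0, ← ha, inv_mul_cancel₀ ha0]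
          exact Q.reg_one
        · rw [dl_ne _ _ _ _ hi, hi0, ← ha, div_mul_cancel₀ _ ha0, sub_self]
          exact Q.reg_zero) g h1
    exact h2
  -- transcendence degree
  have htr : Algebra.trdeg ℂ Ξ = ((N + 1 : ℕ) : Cardinal) := by
    have h1 := trdeg_add_eq ℂ Λ (A := Ξ)
    rw [hN, IsFF.trdeg (k := Λ) (K := Ξ)] at h1
    rw [← h1]
    push_cast
    rfl
  obtain ⟨D0, hD0'⟩ := Pool.Agent.W602.GT.exists_dual hx
  have hdual : ∀ i j, D0 i (x j) = if i = j then 1 else 0 := by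
    intro i j
    have h1 := congrFun (congrFun hD0' i) j
    rw [Matrix.of_apply, Matrix.one_apply] at h1
    exact h1
  have hP := Pool.Agent.Y297.NT.t_Pull Pool.Agent.Y71.NT.t_abh E Ξ m (N + 1) hm htr x hx D0 hdual
    _ hpl hreg (rcP Q) (rcP_div hN Q) (dl δ i0 τ a) hdr
  simp only [hD0', Matrix.det_one, one_mul] at hP
  rw [det_eq δ i0 τ ha0, mul_assoc, hvo]
  have h1 : Ge Q (Q.ord a) a := Or.inr le_rfl
  have h2 : Ge Q 0 ((Matrix.of fun i j => dl δ i0 τ a i (algebraMap E Ξ (x j)) :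
    Matrix (Fin m) (Fin m) Ξ).det * algebraMap E Ξ f) := hP
  have h3 := Ge.mul h1 h2
  rwa [add_zero] at h3

end Pool.Agent.N281.SX
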