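import Pool.Agent.N145.SX.Stm
import Pool.Agent.N281.SX.REGFa

/-!
Project SX (helper145), part REGF (helper281): regularity of pull-backs along horizontal divisors.
-/

set_option autoImplicit false
set_option linter.overlappingInstances false

open FF

namespace Pool.Agent.N281.SX

open Pool.Agent.N145.SX

theorem REGF : S_REGF := by
  intro E Λ Ξ _ _ _ _ _ _ _ _ _ _ _ _ _ m N hm hN x hx f hf Ds s hs δ i0 hi0 hδ Q
  exact core E Λ Ξ m N hm hN x hx f (Pool.Agent.Y184.NT.trForm_pluri x f)
    (fun P hP => (hf P hP).2 fun h => h) Ds s hs δ i0 hi0 hδ Q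

end Pool.Agent.N281.SX
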